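import Mathlib
import Pool.Agent.Work.MP_713a1e_co.AP
import Pool.Agent.Work.MP_713a1e_co.Sieve
import Pool.Agent.Work.MP_713a1e_co.SieveRefl
import Pool.Agent.Work.MP_713a1e_co.ChoiceJ
import Pool.Agent.Work.MP_713a1e_co.T3Final
import Pool.Agent.Work.MP_713a1e_co.T3Forest
import Pool.Agent.Work.MP_713a1e_co.T3VdW
import Pool.Agent.Work.MP_713a1e_co.T3Breg
import Pool.Agent.Work.MP_713a1e_co.T3Upper
import Pool.Agent.Work.MP_713a1e_co.E.Large

/-!
# The rows of the prime pyramid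

For every `n ≥ 2` the numbers `1, …, n` can be arranged in a row starting with `1`,
ending with `n`, with all sums of neighbours prime; and the number `R n` of such rows
satisfies `R n = ((1 + o(1)) n / (e log n)) ^ n`.
-/

namespace Pool.Agent.Results.MP_713a1e_co.RowsAll

open Filter

/-- `l` is a prime pyramid row of length `n`: a rearrangement of `1, …, n` with first term `1`, last
term `n`, such that the sum of any two adjacent terms is prime. -/
def IsRow (n : ℕ) (l : List ℕ) : Prop :=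
  l.Perm (List.range' 1 n) ∧ l.head? = some 1 ∧ l.getLast? = some n ∧
    l.IsChain (fun x y => (x + y).Prime)

/-- `R n`: the number of prime pyramid rows of length `n`. -/
noncomputable def R (n : ℕ) : ℕ := {l : List ℕ | IsRow n l}.ncard

open Pool.Agent.Work.MP_713a1e_co in
lemma rows_eq (n : ℕ) : {l : List ℕ | IsRow n l} = Rows (Finset.Icc 1 n) 1 n := by
  ext l
  have hnd : (List.range' 1 n).Nodup := List.nodup_range'
  have hmem : ∀ x, x ∈ List.range' 1 n ↔ x ∈ Finset.Icc 1 n := by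
    intro x
    rw [List.mem_range'_1, Finset.mem_Icc]
    omega
  constructor
  · rintro ⟨h1, h2, h3, h4⟩
    refine ⟨h1.nodup_iff.2 hnd, fun x => ?_, h2, h3, h4⟩
    rw [h1.mem_iff, hmem]
  · rintro ⟨h1, h2, h3, h4, h5⟩
    refine ⟨(List.perm_ext_iff_of_nodup h1 hnd).2 fun x => ?_, h3, h4, h5⟩
    rw [h2, hmem]

lemma finite_rows (n : ℕ) : {l : List ℕ | IsRow n l}.Finite := by
  refine (List.finite_toSet ((List.range' 1 n).permutations)).subset ?_
  intro l hl
  exact List.mem_permutations.2 hl.1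

lemma one_le_R {n : ℕ} (hn : 1 ≤ n) : 1 ≤ R n := by
  obtain ⟨l, hl⟩ := Pool.Agent.Work.MP_713a1e_co.E.hasRow_all hn
  exact Nat.one_le_iff_ne_zero.2 ((Set.ncard_ne_zero_of_mem (a := l) hl (finite_rows n)))

open Pool.Agent.Work.MP_713a1e_co in
/-- For every `n ≥ 2` there is a prime pyramid row of length `n`; and the number `R n` of rows is
`((1 + o(1)) n / (e log n)) ^ n`. -/
theorem result :
    (∀ n : ℕ, 2 ≤ n → 1 ≤ R n) ∧
    ∀ ε : ℝ, 0 < ε → ε < 1 → ∃ n₀ : ℕ, ∀ n : ℕ, n₀ ≤ n →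
      ((1 - ε) * n / (Real.exp 1 * Real.log n)) ^ n ≤ (R n : ℝ) ∧
      (R n : ℝ) ≤ ((1 + ε) * n / (Real.exp 1 * Real.log n)) ^ n := by
  refine ⟨fun n hn => one_le_R (by omega), fun ε hε hε1 => ?_⟩
  have hAP : APProp := fun q a hq ha κ δ hκ hδ => primes_in_ap q a hq ha κ δ hκ hδ
  have hlow := T3.lowerT3 hAP sieve_pairs (choiceT_of hAP sieve_one sieve_refl)
    (fun m N T M1 M2 hm h => T3.components hm h)
    (T3.countFP_of (T3.wsEv_of T3.vdw T3.bregW)) ε hε hε1
  have hup := T3.upper_of T3.bregW ε hε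
  obtain ⟨n₀, hn₀⟩ := eventually_atTop.1 (hlow.and hup)
  refine ⟨n₀, fun n hn => ?_⟩
  obtain ⟨h1, h2⟩ := hn₀ n hn
  rw [← rows_eq] at h1 h2
  exact ⟨h1, h2⟩

end Pool.Agent.Results.MP_713a1e_co.RowsAll
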